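import Pool.Agent.N929.EZ.Stm
import Pool.Agent.N929.EY.Win

/-!
# EZ/FAM3: one family of unit squares in a domain, good in all long windows
-/

set_option autoImplicit false
set_option linter.unusedVariables false

namespace Pool.Agent.N478.EZ

open Pool.Agent.H976R2 Pool.Agent.H976R2.Dir Finset
open Pool.Agent.N929.EX Pool.Agent.N929.EY Pool.Agent.N929.EZ
open scoped Classical

noncomputable section

/-- the corners of an occupied square are sites of the walk -/
theorem corners {n : ℕ} {w : List Dir} (hw : w ∈ SW n) {p : ℤ × ℤ} {k : ℕ} (h : At w p k 3)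
    {D : Set (ℤ × ℤ)} (hD : ∀ t, t ≤ n → Lip.PP w t ∈ D) : Cs D p := by
  obtain ⟨hl, hs⟩ := mem_SW.mp hw
  obtain ⟨h1, h2⟩ := h
  obtain ⟨S, hS⟩ : ∃ S : Finset (ℤ × ℤ),
      S = {(p.1, p.2), (p.1, p.2 + 1), (p.1 + 1, p.2), (p.1 + 1, p.2 + 1)} := ⟨_, rfl⟩
  have hSc : S.card ≤ 4 := by rw [hS]; exact Finset.card_le_four
  have hmem : ∀ v, Cn p v ↔ v ∈ S := by
    intro v
    rw [hS]
    simp only [mem_insert, mem_singleton, Prod.ext_iff, Cn]
    constructor
    · rintro ⟨a | a, b | b⟩ <;> simp [a, b]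
    · rintro (h | h | h | h) <;> simp [h]
  have himg : (range 4).image (fun j => Lip.PP w (k + j)) = S := by
    refine eq_of_subset_of_card_le (fun v hv => ?_) ?_
    · rw [mem_image] at hv
      obtain ⟨j, hj, rfl⟩ := hv
      rw [mem_range] at hj
      exact (hmem _).mp ((h2 (k + j) (by omega)).mpr (by omega))
    · rw [card_image_of_injOn, card_range]
      · exact hSc
      · intro i hi j hj hij
        rw [mem_coe, mem_range] at hi hj
        have := Lip.PP_inj hs (j := k + i) (k := k + j) (by omega) (by omega) hij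
        omega
  intro v hv
  rw [hmem, ← himg, mem_image] at hv
  obtain ⟨j, hj, rfl⟩ := hv
  rw [mem_range] at hj
  exact hD _ (by omega)

/-- the real analysis of the error terms -/
theorem ana (A D K : ℝ) (hA : 0 < A) (hD : 0 < D) (hK : 0 ≤ K) : ∃ c C : ℝ, 0 < c ∧ 0 < C ∧
    ∀ n : ℕ, 2 ≤ n → 1 ≤ C * Real.exp (-(c * n)) ∨
      (A * Real.log (2 * n) ^ 2 ≤ n / 8 ∧ 16 ≤ n ∧ ∀ g : ℕ, n ≤ 8 * g →
        D * Real.exp (-((g : ℝ) / 5000)) +
          (2 / 7 : ℝ) ^ (g / 4000000000) * (4 * Real.exp (K * Real.log (2 * n) ^ 2)) +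
          (2 * (n : ℝ) + 1) ^ 3 * Real.exp (-((n : ℝ) / 3200000000)) ≤
        C * Real.exp (-(c * n))) := by
  obtain ⟨ε, hε⟩ : ∃ ε : ℝ, ε = 1 / (8 * A + 10 ^ 11 * (K + 6)) := ⟨_, rfl⟩
  have hden : (0 : ℝ) < 8 * A + 10 ^ 11 * (K + 6) := by positivity
  have hε0 : 0 < ε := by rw [hε]; positivity
  have hε1 : ε * (8 * A + 10 ^ 11 * (K + 6)) = 1 := by
    rw [hε]; field_simp
  have hAε : 0 ≤ A * ε := by positivity
  have hKε : 0 ≤ K * ε := by positivity
  have e1 : A * ε ≤ 1 / 8 := by nlinarith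
  have e2 : K * ε ≤ 1 / 10 ^ 11 := by nlinarith
  have e3 : 6 * ε ≤ 1 / 10 ^ 11 := by nlinarith
  have hlo := (Real.isLittleO_pow_log_id_atTop (n := 2)).def (show (0 : ℝ) < ε / 2 by positivity)
  rw [Filter.eventually_atTop] at hlo
  obtain ⟨x₀, hx₀⟩ := hlo
  obtain ⟨n₀, hn₀⟩ := exists_nat_ge x₀
  obtain ⟨c, hc⟩ : ∃ c : ℝ, c = 1 / 10 ^ 11 := ⟨_, rfl⟩
  have hc0 : 0 < c := by rw [hc]; positivity
  refine ⟨c, Real.exp (c * (n₀ + 16)) + D + 4 * Real.exp 1 + 1, hc0, by positivity,
    fun n hn => ?_⟩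
  have hn' : (2 : ℝ) ≤ n := by exact_mod_cast hn
  by_cases hnn : n < n₀ + 16
  · left
    have hnn' : (n : ℝ) ≤ n₀ + 16 := by exact_mod_cast hnn.le
    have h1 : Real.exp (c * (n₀ + 16)) * Real.exp (-(c * n)) ≥ 1 := by
      rw [← Real.exp_add]
      apply Real.one_le_exp
      nlinarith
    have h2 := Real.exp_pos (-(c * n))
    have h3 := Real.exp_pos 1
    nlinarith [mul_pos hD h2, mul_pos h3 h2]
  · right
    push Not at hnn
    have hx := hx₀ (2 * n) (by
      have : (n₀ : ℝ) + 16 ≤ n := by exact_mod_cast hnn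
      have : (0 : ℝ) ≤ n₀ := Nat.cast_nonneg _
      linarith)
    obtain ⟨l, hl⟩ : ∃ l : ℝ, l = Real.log (2 * n) := ⟨_, rfl⟩
    rw [← hl] at hx ⊢
    have hl2 : l ^ 2 ≤ ε * n := by
      rw [Real.norm_eq_abs, id, Real.norm_eq_abs, abs_of_nonneg (by positivity),
        abs_of_nonneg (by positivity)] at hx
      linarith
    have hl1 : 1 ≤ l := by
      rw [hl]
      have h1 : Real.log (2 * 2) ≤ Real.log (2 * n) :=
        Real.log_le_log (by norm_num) (by linarith)
      rw [Real.log_mul (by norm_num) (by norm_num)] at h1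
      have := Real.log_two_gt_d9
      linarith
    have hll : l ≤ l ^ 2 := by nlinarith
    have hn0 : (0 : ℝ) ≤ n := by positivity
    refine ⟨?_, by omega, fun g hg => ?_⟩
    · nlinarith [mul_le_mul_of_nonneg_left hl2 hA.le, mul_le_mul_of_nonneg_right e1 hn0]
    have hg' : (n : ℝ) ≤ 8 * g := by exact_mod_cast hg
    have f1 : D * Real.exp (-((g : ℝ) / 5000)) ≤ D * Real.exp (-(c * n)) := by
      refine mul_le_mul_of_nonneg_left (Real.exp_le_exp.mpr ?_) hD.le
      rw [hc]
      have : (1 / 10 ^ 11 : ℝ) * n ≤ (g : ℝ) / 5000 := by linarith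
      linarith
    have f2 : (2 / 7 : ℝ) ^ (g / 4000000000) * (4 * Real.exp (K * l ^ 2)) ≤
        4 * Real.exp 1 * Real.exp (-(c * n)) := by
      obtain ⟨m, hm⟩ : ∃ m : ℕ, m = g / 4000000000 := ⟨_, rfl⟩
      rw [← hm]
      have hm1 : g < 4000000000 * (m + 1) := by omega
      have hm2 : (g : ℝ) < 4000000000 * ((m : ℝ) + 1) := by exact_mod_cast hm1
      have hp : (2 / 7 : ℝ) ^ m ≤ Real.exp (-(m : ℝ)) := by
        have h7 : (2.7182818286 : ℝ) > Real.exp 1 := Real.exp_one_lt_d9
        have h9 : (2 / 7 : ℝ) ≤ Real.exp (-1) := by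
          rw [Real.exp_neg, ← one_div, div_le_div_iff₀ (by norm_num) (Real.exp_pos _)]
          linarith
        calc (2 / 7 : ℝ) ^ m ≤ Real.exp (-1) ^ m := pow_le_pow_left₀ (by norm_num) h9 m
          _ = Real.exp (-(m : ℝ)) := by rw [← Real.exp_nat_mul]; ring_nf
      calc (2 / 7 : ℝ) ^ m * (4 * Real.exp (K * l ^ 2))
          ≤ Real.exp (-(m : ℝ)) * (4 * Real.exp (K * l ^ 2)) := by gcongr
        _ = 4 * Real.exp (-(m : ℝ) + K * l ^ 2) := by rw [Real.exp_add]; ring
        _ ≤ 4 * Real.exp (1 + -(c * n)) := by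
            refine mul_le_mul_of_nonneg_left (Real.exp_le_exp.mpr ?_) (by norm_num)
            rw [hc]
            have h5 : K * l ^ 2 ≤ (1 / 10 ^ 11) * n := by
              nlinarith [mul_le_mul_of_nonneg_left hl2 hK, mul_le_mul_of_nonneg_right e2 hn0]
            linarith
        _ = 4 * Real.exp 1 * Real.exp (-(c * n)) := by rw [Real.exp_add]; ring
    have f3 : (2 * (n : ℝ) + 1) ^ 3 * Real.exp (-((n : ℝ) / 3200000000)) ≤
        1 * Real.exp (-(c * n)) := by
      have h1 : 2 * (n : ℝ) + 1 ≤ Real.exp (2 * l) := by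
        rw [two_mul l, Real.exp_add, hl, Real.exp_log (by positivity)]
        nlinarith
      calc (2 * (n : ℝ) + 1) ^ 3 * Real.exp (-((n : ℝ) / 3200000000))
          ≤ Real.exp (2 * l) ^ 3 * Real.exp (-((n : ℝ) / 3200000000)) := by gcongr
        _ = Real.exp (6 * l + -((n : ℝ) / 3200000000)) := by
            rw [← Real.exp_nat_mul, ← Real.exp_add]
            congr 1
            push_cast
            ring
        _ ≤ 1 * Real.exp (-(c * n)) := by
            rw [one_mul]
            apply Real.exp_le_exp.mpr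
            rw [hc]
            nlinarith [mul_le_mul_of_nonneg_right e3 hn0]
    have h2 := Real.exp_pos (-(c * n))
    have h4 := mul_pos (Real.exp_pos (c * (n₀ + 16))) h2
    linarith

/-- EZ/FAM3 -/
theorem fam3 (hsel : S_SEL3) (hoff : S_OFF) (hplq : S_PLQ) (hup : S_UP) (hfew : S_FEW) :
    S_FAM3 := by
  obtain ⟨A, B, hA, hB, hF⟩ := few_win hfew
  obtain ⟨μ, K, hμ, hK, hlow, hupp⟩ := hup
  obtain ⟨c, C, hc, hC, hana⟩ := ana A B K hA hB hK
  refine ⟨c, C, hc, hC, fun n hn D => ?_⟩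
  rcases hana n hn with h1 | ⟨h1, h16, h2⟩
  · refine ⟨∅, fun p hp => absurd hp (notMem_empty p), fun p hp => absurd hp (notMem_empty p),
      fun N a b _ _ _ _ => ?_⟩
    calc _ ≤ ((SW N).card : ℝ) := by exact_mod_cast card_filter_le _ _
      _ = 1 * ((SW N).card : ℝ) := (one_mul _).symm
      _ ≤ C * Real.exp (-(c * n)) * ((SW N).card : ℝ) := by gcongr
  have hn' : (2 : ℝ) ≤ n := by exact_mod_cast hn
  obtain ⟨ι, hι1, hι2, Λ, hΛ, hsel⟩ := hsel (2 * n + 1)
  -- the families in `D`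
  obtain ⟨L, hL⟩ : ∃ L : ι → Finset (ℤ × ℤ), ∀ i, L i = (Λ i).filter (Cs D) :=
    ⟨fun i => (Λ i).filter (Cs D), fun _ => rfl⟩
  have hLC : ∀ i, CF (L i) := by
    intro i p hp q hq hpq
    rw [hL, mem_filter] at hp hq
    exact hΛ i p hp.1 q hq.1 hpq
  have hLD : ∀ i, ∀ q ∈ L i, Cs D q := by
    intro i q hq
    rw [hL, mem_filter] at hq
    exact hq.2
  have hcpos : ∀ N, (0 : ℝ) < ((SW N).card : ℝ) := fun N =>
    lt_of_lt_of_le (by positivity) (hlow N)
  -- the exceptional sets
  obtain ⟨R, hR⟩ : ∃ R : ℕ × ℕ × ℕ → ι → Finset (List Dir), ∀ t i, R t i =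
      (SW t.1).filter (fun w => (∀ s, s ≤ t.1 → Lip.PP w s ∈ D) ∧
        ¬ 4000 * BW (t.2.1 + 1) (t.1 - t.2.2 + 2) w < t.2.2 - t.2.1 ∧
        ¬ (t.2.2 - t.2.1 ≤ 400000000 * (OO (L i) 1 (t.2.1, t.2.2) w).card)) := ⟨_, fun _ _ => rfl⟩
  obtain ⟨T, hT⟩ : ∃ T : Finset (ℕ × ℕ × ℕ), T =
      (range (2 * n + 1) ×ˢ range (2 * n + 1) ×ˢ range (2 * n + 1)).filter
        (fun t => t.2.1 ≤ t.2.2 ∧ t.2.2 ≤ t.1 ∧ n ≤ 8 * (t.2.2 - t.2.1)) := ⟨_, rfl⟩
  have hTc : ((T.card : ℕ) : ℝ) ≤ (2 * (n : ℝ) + 1) ^ 3 := by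
    have : T.card ≤ (2 * n + 1) ^ 3 := by
      rw [hT]
      refine (card_filter_le _ _).trans ?_
      rw [card_product, card_product, card_range]
      apply le_of_eq
      ring
    exact_mod_cast this
  have hRs : ∀ t ∈ T, ∑ i, ((R t i).card : ℝ) / ((SW t.1).card : ℝ) ≤
      Real.exp (-((n : ℝ) / 3200000000)) * Fintype.card ι := by
    rintro ⟨N, a, b⟩ ht
    rw [hT, mem_filter] at ht
    obtain ⟨ht1, hab, hbN, hg⟩ := ht
    simp only [mem_product, mem_range] at ht1 hab hbN hg ⊢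
    rw [← sum_div, div_le_iff₀ (hcpos N)]
    have key : ∀ w ∈ SW N, ((univ.filter (fun i => w ∈ R (N, a, b) i)).card : ℝ) ≤
        Real.exp (-((n : ℝ) / 3200000000)) * Fintype.card ι := by
      intro w hw
      by_cases hw2 : (∀ s, s ≤ N → Lip.PP w s ∈ D) ∧
        ¬ 4000 * BW (a + 1) (N - b + 2) w < b - a
      · obtain ⟨hwD, hwF⟩ := hw2
        obtain ⟨P, hP1, hP2, hP3⟩ := plw hplq (a := a) (b := b) (by omega) hbN hw
        have hPD : ∀ p ∈ P, Cs D p := by
          intro p hp
          have h3 := hP2 {p} (mem_inter.mpr ⟨mem_singleton_self p, hp⟩)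
          obtain ⟨-, k, hk, -⟩ := mem_filter.mp h3
          exact corners hw hk hwD
        have hPc : b - a ≤ 4000 * P.card := by omega
        have hs := hsel P (fun p hp => by
          have h3 := hP1 p hp
          have h4 : (N : ℤ) ≤ 2 * n := by omega
          push_cast
          constructor
          · linarith [h3.1]
          · linarith [h3.2])
        have hsub : (univ.filter (fun i => w ∈ R (N, a, b) i)).card ≤
            (univ.filter (fun i => 100000 * (Λ i ∩ P).card < P.card)).card := by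
          refine card_le_card (fun i hi => ?_)
          rw [mem_filter] at hi ⊢
          refine ⟨mem_univ _, ?_⟩
          obtain ⟨-, hi⟩ := hi
          rw [hR, mem_filter] at hi
          obtain ⟨-, -, -, hi⟩ := hi
          simp only at hi
          by_contra hcon
          push Not at hcon
          apply hi
          have h5 : (Λ i ∩ P).card ≤ (OO (L i) 1 (a, b) w).card := by
            refine card_le_card (fun p hp => ?_)
            rw [mem_inter] at hp
            refine hP2 (L i) (mem_inter.mpr ⟨?_, hp.2⟩)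
            rw [hL, mem_filter]
            exact ⟨hp.1, hPD p hp.2⟩
          omega
        calc ((univ.filter (fun i => w ∈ R (N, a, b) i)).card : ℝ) ≤
            ((univ.filter (fun i => 100000 * (Λ i ∩ P).card < P.card)).card : ℝ) := by
              exact_mod_cast hsub
          _ ≤ Real.exp (-((P.card : ℝ) / 100000)) * Fintype.card ι := hs
          _ ≤ _ := by
              refine mul_le_mul_of_nonneg_right (Real.exp_le_exp.mpr ?_) (Nat.cast_nonneg _)
              have h6 : n ≤ 32000 * P.card := by omega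
              have h7 : (n : ℝ) ≤ 32000 * P.card := by exact_mod_cast h6
              linarith
      · have : univ.filter (fun i => w ∈ R (N, a, b) i) = ∅ := by
          refine filter_eq_empty_iff.mpr fun i _ hi => hw2 ?_
          rw [hR, mem_filter] at hi
          exact ⟨hi.2.1, hi.2.2.1⟩
        rw [this, card_empty, Nat.cast_zero]
        positivity
    have hswap : ∑ i, ((R (N, a, b) i).card : ℝ) =
        ∑ w ∈ SW N, ((univ.filter (fun i => w ∈ R (N, a, b) i)).card : ℝ) := by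
      have e1 : ∀ i, ((R (N, a, b) i).card : ℝ) =
          ∑ w ∈ SW N, if w ∈ R (N, a, b) i then (1 : ℝ) else 0 := by
        intro i
        rw [← sum_filter, sum_const, nsmul_eq_mul, mul_one]
        congr 2
        ext w
        rw [mem_filter]
        constructor
        · intro h
          refine ⟨?_, h⟩
          rw [hR, mem_filter] at h
          exact h.1
        · exact fun h => h.2
      simp_rw [e1]
      rw [sum_comm]
      refine sum_congr rfl fun w _ => ?_
      rw [← sum_filter, sum_const, nsmul_eq_mul, mul_one]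
    rw [hswap]
    calc _ ≤ ∑ w ∈ SW N, Real.exp (-((n : ℝ) / 3200000000)) * Fintype.card ι := sum_le_sum key
      _ = _ := by rw [sum_const, nsmul_eq_mul]; ring
  -- the choice of the family
  obtain ⟨i, -, hi⟩ : ∃ i ∈ (univ : Finset ι), ∑ t ∈ T, ((R t i).card : ℝ) / ((SW t.1).card : ℝ) ≤
      (2 * (n : ℝ) + 1) ^ 3 * Real.exp (-((n : ℝ) / 3200000000)) := by
    refine exists_le_of_sum_le univ_nonempty ?_
    rw [sum_comm, sum_const, nsmul_eq_mul]
    calc _ ≤ ∑ t ∈ T, Real.exp (-((n : ℝ) / 3200000000)) * Fintype.card ι := sum_le_sum hRs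
      _ = (T.card : ℝ) * (Real.exp (-((n : ℝ) / 3200000000)) * Fintype.card ι) := by
          rw [sum_const, nsmul_eq_mul]
      _ ≤ (2 * (n : ℝ) + 1) ^ 3 * (Real.exp (-((n : ℝ) / 3200000000)) * Fintype.card ι) := by
          gcongr
      _ = _ := by rw [card_univ]; ring
  refine ⟨L i, hLC i, hLD i, fun N a b hN hab hbN hg => ?_⟩
  obtain ⟨x, hx⟩ : ∃ x : ℝ, x = ((SW N).card : ℝ) := ⟨_, rfl⟩
  have hx0 : 0 < x := by rw [hx]; exact hcpos N
  have c2 : ((b - a : ℕ) : ℝ) = b - a := by rw [Nat.cast_sub (by omega)]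
  -- the three parts
  have p1 : ((R (N, a, b) i).card : ℝ) ≤
      (2 * (n : ℝ) + 1) ^ 3 * Real.exp (-((n : ℝ) / 3200000000)) * x := by
    have ht : (N, a, b) ∈ T := by
      rw [hT, mem_filter]
      simp only [mem_product, mem_range]
      omega
    have h3 := single_le_sum (f := fun t => ((R t i).card : ℝ) / ((SW t.1).card : ℝ))
      (fun t _ => by positivity) ht
    have h4 := h3.trans hi
    simp only at h4
    rw [div_le_iff₀ (hcpos N), ← hx] at h4
    exact h4
  have hN2 : 2 ≤ N := by omega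
  have hlogN : Real.log N ^ 2 ≤ Real.log (2 * n) ^ 2 := by
    have hN' : (1 : ℝ) ≤ N := by
      have : 1 ≤ N := by omega
      exact_mod_cast this
    have h3 : (N : ℝ) ≤ 2 * n := by exact_mod_cast hN
    have h4 : 0 ≤ Real.log N := Real.log_nonneg hN'
    have h5 : Real.log N ≤ Real.log (2 * n) := Real.log_le_log (by linarith) h3
    exact pow_le_pow_left₀ h4 h5 2
  have hg8 : (n : ℝ) ≤ 8 * ((b - a : ℕ) : ℝ) := by exact_mod_cast hg
  have p2 : (((SW N).filter (fun w => 4000 * BW (a + 1) (N - b + 2) w < b - a)).card : ℝ) ≤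
      B * Real.exp (-(((b - a : ℕ) : ℝ) / 5000)) * x := by
    rw [hx]
    refine hF N a b hN2 hab hbN ?_
    rw [← c2]
    have := mul_le_mul_of_nonneg_left hlogN hA.le
    linarith
  have p3 : (((SW N).filter (fun w => 8 * ((b - a) / 4000000000) ≤
      (OO (L i) 1 (a, b) w).card ∧ (DD (L i) 1 (a, b) w).card ≤
        (OO (L i) 1 (a, b) w).card + (b - a) / 4000000000)).card : ℝ) ≤
      (2 / 7 : ℝ) ^ ((b - a) / 4000000000) * (4 * Real.exp (K * Real.log (2 * n) ^ 2)) * x := by
    have q1 := hoff (L i) (hLC i) 1 (a, b) N ((b - a) / 4000000000) ((b - a) / 4000000000)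
      (8 * ((b - a) / 4000000000)) hab hbN le_rfl le_rfl (by simp) (by intro _; simp only; omega)
      (by simp)
    refine q1.trans ?_
    have g4 := hupp (N - 2 * ((b - a) / 4000000000)) (2 * n) (by omega) (by omega)
    have g5 : μ ^ (N - 2 * ((b - a) / 4000000000)) ≤ x := by
      rw [hx]
      refine le_trans ?_ (hlow N)
      exact pow_le_pow_right₀ (by linarith) (by omega)
    push_cast at g4
    calc (2 / 7 : ℝ) ^ ((b - a) / 4000000000) *
          ((SW (N - 2 * ((b - a) / 4000000000))).card : ℝ)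
        ≤ (2 / 7 : ℝ) ^ ((b - a) / 4000000000) *
          (4 * (x * Real.exp (K * Real.log (2 * n) ^ 2))) := by
          refine mul_le_mul_of_nonneg_left (g4.trans ?_) (by positivity)
          gcongr
      _ = _ := by ring
  have hsub : (SW N).filter (fun w => (∀ t, t ≤ N → Lip.PP w t ∈ D) ∧ ¬ G3 (L i) a b w) ⊆
      (SW N).filter (fun w => 4000 * BW (a + 1) (N - b + 2) w < b - a) ∪
      ((SW N).filter (fun w => 8 * ((b - a) / 4000000000) ≤
        (OO (L i) 1 (a, b) w).card ∧ (DD (L i) 1 (a, b) w).card ≤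
        (OO (L i) 1 (a, b) w).card + (b - a) / 4000000000) ∪ R (N, a, b) i) := by
    intro w hw
    rw [mem_filter] at hw
    obtain ⟨hw1, hw2, hw3⟩ := hw
    rw [mem_union, mem_union, mem_filter, mem_filter, hR, mem_filter]
    by_contra hcon
    push Not at hcon
    obtain ⟨k1, k2, k3⟩ := hcon
    have k1' := k1 hw1
    have k3' := k3 hw1 hw2 (by simp only; omega)
    simp only at k3'
    have k2' := k2 hw1 (by omega)
    apply hw3
    unfold G3
    omega
  calc _ ≤ ((((SW N).filter (fun w => 4000 * BW (a + 1) (N - b + 2) w < b - a)).card +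
      (((SW N).filter (fun w => 8 * ((b - a) / 4000000000) ≤
        (OO (L i) 1 (a, b) w).card ∧ (DD (L i) 1 (a, b) w).card ≤
        (OO (L i) 1 (a, b) w).card + (b - a) / 4000000000)).card +
        (R (N, a, b) i).card) : ℕ) : ℝ) := by
        exact_mod_cast (card_le_card hsub).trans ((card_union_le _ _).trans
          (Nat.add_le_add_left (card_union_le _ _) _))
    _ ≤ B * Real.exp (-(((b - a : ℕ) : ℝ) / 5000)) * x +
        ((2 / 7 : ℝ) ^ ((b - a) / 4000000000) * (4 * Real.exp (K * Real.log (2 * n) ^ 2)) * x +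
        (2 * (n : ℝ) + 1) ^ 3 * Real.exp (-((n : ℝ) / 3200000000)) * x) := by
        push_cast
        linarith
    _ = (B * Real.exp (-(((b - a : ℕ) : ℝ) / 5000)) +
        (2 / 7 : ℝ) ^ ((b - a) / 4000000000) * (4 * Real.exp (K * Real.log (2 * n) ^ 2)) +
        (2 * (n : ℝ) + 1) ^ 3 * Real.exp (-((n : ℝ) / 3200000000))) * x := by ring
    _ ≤ C * Real.exp (-(c * n)) * x := mul_le_mul_of_nonneg_right (h2 (b - a) hg) hx0.le
    _ = _ := by rw [hx]

end

end Pool.Agent.N478.EZ
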